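import Mathlib
import Pool.Agent.Helper16.E3.Reg2

/-!
# E-T (MP_12a1af_nt), phase 3: descriptions of the consecutive regions of a layout

`Desc`, `IsDesc`, `Occ` are the definitions of T* over the new schedule (part `[0, wb c t)`);
`Desc2`, `IsDesc2` the whole layout below the zone.
-/

variable [Pool.Agent.Helper29.E3.EpFn]

set_option autoImplicit false

namespace Pool.Agent.E3

open Pool.Agent.ETS (Codes Reg)
open Pool.Agent.Helper29.ETK (Kid CC)
open Pool.Agent.Helper29.E3 (Kid2 kid kid2 ep Wd Hd Ld un mb sb av wb zb tU tB)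

/-- the region is `PT` -/
def isPT : Reg → Prop
  | .PT _ _ _ _ => True
  | _ => False

/-- kinds of zones of the merged part -/
inductive Desc
  | P (g e : ℕ)
  | PT (g b : ℕ)
  | RS (g b v : ℕ)
  | R (b v : ℕ)
  | RT (b v : ℕ)
  | RTh (b v : ℕ)

namespace Desc

/-- bottom of the zone -/
def lo : Desc → ℕ
  | .P g _ => g
  | .PT g _ => g
  | .RS _ b _ => b
  | .R b _ => b
  | .RT b _ => b
  | .RTh b _ => b

/-- top of the zone -/
def hi (c : ℕ) : Desc → ℕ
  | .P _ e => e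
  | .PT _ b => b + Wd c b
  | .RS _ _ v => v
  | .R _ v => v
  | .RT _ v => v
  | .RTh _ v => v

/-- end of the boundary interval which belongs to the zone: the top for the `P` types, the bottom
of the part with the variable `y` for the `R` types -/
def Ip (c : ℕ) : Desc → ℕ
  | .P _ e => e
  | .PT _ b => b + Wd c b
  | .RS _ b _ => b + Wd c b
  | .R b _ => b
  | .RT b _ => b + Wd c b
  | .RTh b _ => b + Wd c b

/-- lower end of the boundary interval of a zone of `R` type -/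
def Im (c : ℕ) : Desc → ℕ
  | .P _ e => e
  | .PT _ b => b + Wd c b
  | .RS _ b _ => b + Wd c b
  | .R b _ => b
  | .RT b _ => b
  | .RTh b _ => b

/-- `P` type -/
def IsP : Desc → Prop
  | .P _ _ => True
  | .PT _ _ => True
  | _ => False

/-- `R` type -/
def IsR : Desc → Prop
  | .P _ _ => False
  | .PT _ _ => False
  | _ => True

end Desc

/-- `r0, r1` are consecutive regions of the layout at the time `t`, `r1` in the merged part, with
the description `d` -/
def IsDesc (c t : ℕ) : Desc → Reg → Reg → Prop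
  | .P g e, r0, r1 => r1 = Reg.P (pidx c g) g e ∧ ¬ isPT r0 ∧ g < e ∧ e ≤ wb c t ∧
      (∀ s, g ≤ s → s < e → kid c t s = .P g) ∧ (e = wb c t ∨ kid c t e ≠ .P g)
  | .PT g b, r0, r1 => r1 = Reg.PT (pidx c g) (ep c b) g b ∧ ¬ isPT r0 ∧ g ≤ b ∧
      b + Wd c b ≤ av c t ∧ av c t ≤ wb c t ∧
      (∀ s, g ≤ s → s < b + Wd c b → kid c t s = .PT g b) ∧
      (∀ s, b + Wd c b ≤ s → s < av c t → kid c t s = .R (av c t))
  | .RS g b v, r0, r1 => r0 = Reg.PT (pidx c g) (ep c b) g b ∧ r1 = Reg.R (b + Wd c b) v ∧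
      v = av c t ∧ g ≤ b ∧ b + Wd c b ≤ v ∧ v ≤ wb c t ∧
      (∀ s, g ≤ s → s < b + Wd c b → kid c t s = .PT g b) ∧
      (∀ s, b + Wd c b ≤ s → s < v → kid c t s = .R v)
  | .R b v, r0, r1 => r1 = Reg.R b v ∧ ¬ isPT r0 ∧ b < v ∧ v ≤ wb c t ∧
      (∀ s, b ≤ s → s < v → kid c t s = .R v) ∧ (b = 0 ∨ kid c t (b - 1) ≠ .R v)
  | .RT b v, r0, r1 => r1 = Reg.RT (ep c b) b v ∧ ¬ isPT r0 ∧ b < v ∧ v ≤ wb c t ∧
      (∀ s, b ≤ s → s < v → kid c t s = .RT v) ∧ (b = 0 ∨ kid c t (b - 1) ≠ .RT v)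
  | .RTh b v, r0, r1 => r1 = Reg.RTh (ep c b) b v ∧ ¬ isPT r0 ∧ b < v ∧ v ≤ wb c t ∧
      (∀ s, b ≤ s → s < v → kid c t s = .RTh v) ∧ (b = 0 ∨ kid c t (b - 1) ≠ .RTh v)

/-- there are consecutive regions with the description `d` at the time `t` -/
def Occ (c t : ℕ) (d : Desc) : Prop := ∃ r0 r1, IsDesc c t d r0 r1

/-- distance of the boundary intervals -/
def ddist (c : ℕ) (d d' : Desc) : ℕ := (d.Im c - d'.Ip c) + (d'.Im c - d.Ip c)

/-! ### the top zone -/

/-- kinds of regions of the top zone -/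
inductive Top
  | T2 (b : ℕ)
  | C2 (b : ℕ)
  | mid (f : ℕ)
  | T1 (f : ℕ)
  | C1 (f : ℕ)
  | cell (p : ℕ)

namespace Top

/-- bottom -/
def lo : Top → ℕ
  | .T2 b => b
  | .C2 b => b
  | .mid f => f
  | .T1 f => f
  | .C1 f => f
  | .cell p => p

/-- length -/
def len (c : ℕ) : Top → ℕ
  | .T2 b => Wd c b
  | .C2 b => Wd c b
  | .mid f => Hd c f
  | .T1 f => Hd c f
  | .C1 f => Hd c f
  | .cell p => Ld c p

/-- top -/
def hi (c : ℕ) (d : Top) : ℕ := d.lo + d.len c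

/-- the region -/
def reg (c : ℕ) : Top → Reg2
  | .T2 b => .old (.RT (ep c b) b (b + Wd c b))
  | .C2 b => .C2 (ep c b) b
  | .mid f => .mid (ep c f) f
  | .T1 f => .T1 (ep c f) f
  | .C1 f => .C1 (ep c f) f
  | .cell p => .cell (Ld c p) p

/-- the value of `kid2` -/
def kid : Top → Kid2
  | .T2 b => .T2 b
  | .C2 b => .C2 b
  | .mid f => .mid f
  | .T1 f => .T1 f
  | .C1 f => .C1 f
  | .cell p => .cell p

/-- the times at which the region is present -/
def At (c t : ℕ) : Top → Prop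
  | .T2 b => un c b = b ∧ tU c 2 b ≤ t ∧ t < tU c 3 b
  | .C2 b => un c b = b ∧ tU c 1 b ≤ t ∧ t < tU c 2 b
  | .mid f => mb c f = f ∧ tB c 3 f ≤ t ∧ t < tU c 1 (un c f)
  | .T1 f => mb c f = f ∧ tB c 2 f ≤ t ∧ t < tB c 3 f ∧ t < tU c 1 (un c f)
  | .C1 f => mb c f = f ∧ tB c 1 f ≤ t ∧ t < tB c 2 f ∧ t < tU c 1 (un c f)
  | .cell p => sb c p = p ∧ t < tB c 1 (mb c p) ∧ t < tU c 1 (un c p)

end Top

/-- the region is `old (PT ..)` -/
def isPT2 : Reg2 → Prop
  | .old r => isPT r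
  | _ => False

/-- `d` is a region of the top zone at the time `t` -/
def OccT (c t : ℕ) (d : Top) : Prop :=
  d.At c t ∧ wb c t ≤ d.lo ∧ d.hi c ≤ zb c t

/-- kinds of zones of the whole layout -/
inductive Desc2
  | old (d : Desc)
  | top (d : Top)

/-- `r0, r1` are consecutive regions of the layout at the time `t`, `r1` below the zone, with the
description `d` -/
def IsDesc2 (c t : ℕ) : Desc2 → Reg2 → Reg2 → Prop
  | .old d, r0, r1 => ∃ q0 q1, r0 = .old q0 ∧ r1 = .old q1 ∧ IsDesc c t d q0 q1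
  | .top d, r0, r1 => r1 = d.reg c ∧ ¬ isPT2 r0 ∧ OccT c t d

/-- description of some consecutive pair -/
def HasDesc2 (c t : ℕ) (r0 r1 : Reg2) : Prop := ∃ d, IsDesc2 c t d r0 r1

end Pool.Agent.E3
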