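import Mathlib
import Pool.Agent.Helper86.E3.DescDefs
import Pool.Agent.Helper86.E3.Top2
import Pool.Agent.Helper29.E3.Kinds

/-!
# E-T (MP_12a1af_nt), phase 3: the pairs of consecutive regions of a layout
-/

variable [Pool.Agent.Helper29.E3.EpFn]

set_option autoImplicit false

open Finset

namespace Pool.Agent.E3

open Pool.Agent.ETS (Codes Reg runs rend rend_le lt_rend of_lt_rend rend_spec rend_eq runs_of_le
  runs_of_lt IsCut runs_split' runs_congr)
open Pool.Agent.Helper29.ETK (Kid CC)
open Pool.Agent.Helper29.E3 (Kid2 kid kid2 epo ep Wd Hd Ld un mb sb av wb zb tU tB KidOK)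

/-! ### lists -/

/-- all consecutive pairs of `p :: l` satisfy `Q` -/
def Adj {α : Type} (Q : α → α → Prop) : α → List α → Prop
  | _, [] => True
  | p, r :: l => Q p r ∧ Adj Q r l

/-- last element of `p :: l` -/
def lastR {α : Type} : α → List α → α
  | p, [] => p
  | _, r :: l => lastR r l

lemma Adj.get {α : Type} {Q : α → α → Prop} : ∀ {l : List α} {p : α}, Adj Q p l →
    ∀ {j : ℕ} {r0 r1 : α}, (p :: l)[j]? = some r0 → l[j]? = some r1 → Q r0 r1
  | [], p, _, j, r0, r1, _, h1 => by simp at h1
  | r :: l, p, h, j, r0, r1, h0, h1 => by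
    cases j with
    | zero =>
      simp only [List.getElem?_cons_zero, Option.some.injEq] at h0 h1
      subst h0 h1
      exact h.1
    | succ j =>
      rw [List.getElem?_cons_succ] at h0 h1
      exact Adj.get h.2 h0 h1

lemma Adj.append {α : Type} {Q : α → α → Prop} : ∀ {l1 : List α} {p : α} {l2 : List α},
    Adj Q p l1 → Adj Q (lastR p l1) l2 → Adj Q p (l1 ++ l2)
  | [], _, _, _, h2 => h2
  | _ :: _, _, _, h1, h2 => ⟨h1.1, Adj.append h1.2 h2⟩

lemma lastR_append {α : Type} : ∀ (l1 : List α) (p : α) (l2 : List α),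
    lastR p (l1 ++ l2) = lastR (lastR p l1) l2
  | [], _, _ => rfl
  | _ :: l1, _, l2 => lastR_append l1 _ l2

lemma lastR_map {α β : Type} (g : α → β) : ∀ (l : List α) (p : α),
    lastR (g p) (l.map g) = g (lastR p l)
  | [], _ => rfl
  | _ :: l, _ => lastR_map g l _

lemma Adj.map {α β : Type} {Q : α → α → Prop} {Q' : β → β → Prop} (g : α → β)
    (hQ : ∀ a b, Q a b → Q' (g a) (g b)) : ∀ {l : List α} {p : α}, Adj Q p l →
    Adj Q' (g p) (l.map g)
  | [], _, _ => trivial
  | _ :: _, _, h => ⟨hQ _ _ h.1, Adj.map g hQ h.2⟩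

lemma get_last {α : Type} : ∀ (l : List α) (p w : α), (p :: (l ++ [w]))[l.length]? =
    some (lastR p l)
  | [], _, _ => rfl
  | a :: l, p, w => by
    rw [List.length_cons, List.getElem?_cons_succ, List.cons_append]
    exact get_last l a w

section runs

variable {α β : Type} [DecidableEq α] [DecidableEq β]

lemma rend_comp {g : α → β} (hg : Function.Injective g) (φ : ℕ → α) {u w : ℕ} (h : u < w) :
    rend (fun s => g (φ s)) u w = rend φ u w := by
  refine rend_eq _ (lt_rend φ u w) (rend_le φ h) (fun s h1 h2 => ?_) ?_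
  · show g (φ s) = g (φ u)
    rw [of_lt_rend φ h1 h2]
  · rcases rend_spec φ u w with h1 | h1
    · left; have := rend_le φ h; omega
    · right; exact fun h2 => h1 (hg h2)

lemma runs_comp {g : α → β} (hg : Function.Injective g) (φ : ℕ → α) : ∀ (n w u : ℕ), w - u ≤ n →
    runs (fun s => g (φ s)) w u = (runs φ w u).map (fun q => (g q.1, q.2.1, q.2.2))
  | 0, w, u, hn => by
    rw [runs_of_le _ (by omega), runs_of_le _ (by omega)]; rfl
  | n + 1, w, u, hn => by
    rcases lt_or_ge u w with h | h
    · have h1 := lt_rend φ u w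
      rw [runs_of_lt _ h, runs_of_lt φ h, rend_comp hg φ h, List.map_cons,
        runs_comp hg φ n w _ (by omega)]
    · rw [runs_of_le _ h, runs_of_le _ h]; rfl

end runs

variable {c t : ℕ}

/-! ### the two parts of the layout -/

/-- the regions of the merged part -/
noncomputable def oldBody (c t : ℕ) : List Reg :=
  (runs (kid c t) (wb c t) 0).flatMap (toRegs c t)

/-- the regions of the top zone -/
noncomputable def topBody (c t : ℕ) : List Reg2 :=
  (runs (kid2 c t) (zb c t) (wb c t)).flatMap (toRegs2 c t)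

lemma runs_old (c t : ℕ) : (runs (kid2 c t) (wb c t) 0).flatMap (toRegs2 c t) =
    (oldBody c t).map .old := by
  have h1 : runs (kid2 c t) (wb c t) 0 = runs (fun s => Kid2.old (kid c t s)) (wb c t) 0 := by
    refine runs_congr _ _ 0 (wb c t) le_rfl (fun s _ hs => ?_)
    unfold kid2
    rw [if_pos hs]
  rw [h1, runs_comp (g := Kid2.old) (fun a b h => by injection h) (kid c t) _ _ _ le_rfl]
  unfold oldBody
  rw [List.flatMap_map, List.map_flatMap]
  rfl

/-- **the layout is the old part and the top part** -/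
theorem body_split (hc : 10 ≤ c) (ht : Helper86.E3.E0 c ≤ epo c t) (h0 : 0 < wb c t) :
    body c t = (oldBody c t).map .old ++ topBody c t := by
  unfold body topBody
  rw [← runs_old, ← List.flatMap_append]
  congr 1
  refine runs_split' _ (Nat.zero_le _) (Helper86.E3.wb_le_zb hc ht) ?_
  rcases Nat.eq_or_lt_of_le (Helper86.E3.wb_le_zb hc ht) with h | h
  · exact Or.inr (Or.inl h)
  refine Or.inr (Or.inr ⟨h0, ?_⟩)
  obtain ⟨d, h1, -⟩ := Helper86.E3.topAt hc ht le_rfl h
  rw [h1]
  unfold kid2
  rw [if_pos (by omega)]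
  cases d <;> simp [Top.kid]

/-! ### the old part -/

/-- description of some consecutive pair of the old part -/
def HasDesc (c t : ℕ) (r0 r1 : Reg) : Prop := ∃ d, IsDesc c t d r0 r1

/-- condition on the region before the position `u` -/
def Before (c t : ℕ) (p : Reg) (u : ℕ) : Prop :=
  ¬ isPT p ∨ ∃ g b, p = Reg.PT (pidx c g) (ep c b) g b ∧ u = b + Wd c b ∧ g ≤ b ∧ u < av c t ∧
    av c t ≤ wb c t ∧ (∀ s, g ≤ s → s < b + Wd c b → kid c t s = .PT g b) ∧
    (∀ s, b + Wd c b ≤ s → s < av c t → kid c t s = .R (av c t))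

lemma Before.notPT {p : Reg} {u : ℕ} (h : Before c t p u)
    (hu : u < wb c t → ∀ v, kid c t u ≠ .R v) (hu2 : u ≤ wb c t) : ¬ isPT p := by
  rcases h with h | ⟨g, b, rfl, rfl, h1, h2, h3, h4, h5⟩
  · exact h
  · exact absurd (h5 _ le_rfl h2) (hu (by omega) _)

lemma adj_runs (H : KidOK c t) : ∀ (n u : ℕ) (p : Reg), wb c t - u ≤ n → u ≤ wb c t →
    (u = 0 ∨ kid c t (u - 1) ≠ kid c t u ∨ u = wb c t) → Before c t p u →
    Adj (HasDesc c t) p ((runs (kid c t) (wb c t) u).flatMap (toRegs c t)) ∧
    ¬ isPT (lastR p ((runs (kid c t) (wb c t) u).flatMap (toRegs c t)))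
  | 0, u, p, hn, hu, _, hp => by
    have : u = wb c t := by omega
    subst this
    rw [runs_of_le _ le_rfl]
    exact ⟨trivial, hp.notPT (fun h => absurd h (lt_irrefl _)) le_rfl⟩
  | n + 1, u, p, hn, hu, hcut, hp => by
    rcases Nat.eq_or_lt_of_le hu with rfl | hlt
    · rw [runs_of_le _ le_rfl]
      exact ⟨trivial, hp.notPT (fun h => absurd h (lt_irrefl _)) le_rfl⟩
    have h3 := lt_rend (kid c t) u (wb c t)
    have h4 := rend_le (kid c t) hlt
    have h5 : ∀ s, u ≤ s → s < rend (kid c t) u (wb c t) → kid c t s = kid c t u :=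
      fun s h1 h2 => of_lt_rend _ h1 h2
    have h6 := rend_spec (kid c t) u (wb c t)
    rw [runs_of_lt _ hlt, List.flatMap_cons]
    obtain ⟨e, he⟩ : ∃ e, e = rend (kid c t) u (wb c t) := ⟨_, rfl⟩
    rw [← he] at h3 h4 h5 h6 ⊢
    have hcut' : u = 0 ∨ kid c t (u - 1) ≠ kid c t u := by
      rcases hcut with h | h | h
      · exact Or.inl h
      · exact Or.inr h
      · omega
    have hcute : e = 0 ∨ kid c t (e - 1) ≠ kid c t e ∨ e = wb c t := by
      rcases h6 with h | h
      · right; right; omega
      · right; left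
        rw [h5 (e-1) (by omega) (by omega)]
        exact fun h' => h h'.symm
    cases hk : kid c t u with
    | P g =>
      have hnp : ¬ isPT p := hp.notPT (fun _ v hv => by rw [hk] at hv; cases hv) hu
      have hg : u = g := by
        obtain ⟨h7, h8⟩ := H.P u g hlt hk
        by_contra hne
        rcases hcut' with h9 | h9
        · omega
        · exact h9 (by rw [hk]; exact h8 (u-1) (by omega) (by omega))
      have ih := adj_runs H n e (Reg.P (pidx c g) g e) (by omega) h4 hcute (Or.inl (by simp [isPT]))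
      simp only [toRegs, List.cons_append, List.nil_append]
      refine ⟨⟨⟨.P g e, ?_⟩, ih.1⟩, ih.2⟩
      refine ⟨rfl, hnp, by omega, h4, fun s h1 h2 => ?_, ?_⟩
      · rw [h5 s (by omega) h2, hk]
      · rcases h6 with h | h
        · left; omega
        · right; rw [hk] at h; exact h
    | PT g b =>
      have hnp : ¬ isPT p := hp.notPT (fun _ v hv => by rw [hk] at hv; cases hv) hu
      obtain ⟨h7, h8, h9, h10, h11, h12, h13⟩ := H.PT u g b hlt hk
      have hg : u = g := by
        by_contra hne
        rcases hcut' with h14 | h14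
        · omega
        · exact h14 (by rw [hk]; exact h12 (u-1) (by omega) (by omega))
      have hee : e = b + Wd c b := by
        rw [he]
        refine rend_eq _ (by omega) (by omega) (fun s h1 h2 => ?_) ?_
        · rw [h12 s (by omega) h2, hk]
        · by_cases h14 : b + Wd c b = wb c t
          · exact Or.inl h14
          · right
            intro h15
            rw [hk] at h15
            have h16 := (H.PT (b + Wd c b) g b (by omega) h15).2.2.1
            omega
      simp only [toRegs]
      by_cases hav : av c t = b + Wd c b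
      · rw [if_pos hav]
        have ih := adj_runs H n e (Reg.R (b + Wd c b) (b + Wd c b)) (by omega) h4 hcute
          (Or.inl (by simp [isPT]))
        simp only [List.cons_append, List.nil_append]
        refine ⟨⟨⟨.PT g b, ?_⟩, ⟨.RS g b (b + Wd c b), ?_⟩, ih.1⟩, ih.2⟩
        · exact ⟨rfl, hnp, h7, h10, h11, h12, h13⟩
        · exact ⟨rfl, rfl, hav.symm, h7, le_rfl, by omega, h12, fun s h1 h2 => by omega⟩
      · rw [if_neg hav]
        have ih := adj_runs H n e (Reg.PT (pidx c g) (ep c b) g b) (by omega) h4 hcute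
          (Or.inr ⟨g, b, rfl, hee, h7, by omega, h11, h12, h13⟩)
        simp only [List.cons_append, List.nil_append]
        exact ⟨⟨⟨.PT g b, rfl, hnp, h7, h10, h11, h12, h13⟩, ih.1⟩, ih.2⟩
    | R v =>
      obtain ⟨h7, h8, h9⟩ := H.R u v hlt hk
      have hev : e = v := by
        rw [he]
        refine rend_eq _ h7 h8 (fun s h1 h2 => by rw [h9 s h1 h2, hk]) ?_
        by_cases h14 : v = wb c t
        · exact Or.inl h14
        · right
          intro h15
          rw [hk] at h15
          exact absurd (H.R v v (by omega) h15).1 (lt_irrefl _)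
      have ih := adj_runs H n e (Reg.R u v) (by omega) h4 hcute (Or.inl (by simp [isPT]))
      simp only [toRegs, List.cons_append, List.nil_append]
      rcases hp with hp | ⟨g, b, rfl, rfl, q1, q2, q3, q4, q5⟩
      · refine ⟨⟨⟨.R u v, ?_⟩, ih.1⟩, ih.2⟩
        exact ⟨rfl, hp, h7, h8, h9, by
          rcases hcut' with h | h
          · exact Or.inl h
          · right; rw [hk] at h; exact h⟩
      · have hv : v = av c t := by
          have := q5 _ le_rfl q2
          rw [hk] at this
          injection this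
        refine ⟨⟨⟨.RS g b v, ?_⟩, ih.1⟩, ih.2⟩
        exact ⟨rfl, rfl, hv, q1, h7.le, h8, q4, h9⟩
    | RT v =>
      have hnp : ¬ isPT p := hp.notPT (fun _ v hv => by rw [hk] at hv; cases hv) hu
      obtain ⟨h7, h8, h9⟩ := H.RT u v hlt hk
      have hev : e = v := by
        rw [he]
        refine rend_eq _ h7 h8 (fun s h1 h2 => by rw [h9 s h1 h2, hk]) ?_
        by_cases h14 : v = wb c t
        · exact Or.inl h14
        · right
          intro h15
          rw [hk] at h15
          exact absurd (H.RT v v (by omega) h15).1 (lt_irrefl _)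
      have ih := adj_runs H n e (Reg.RT (ep c u) u v) (by omega) h4 hcute (Or.inl (by simp [isPT]))
      simp only [toRegs, List.cons_append, List.nil_append]
      refine ⟨⟨⟨.RT u v, ?_⟩, ih.1⟩, ih.2⟩
      exact ⟨rfl, hnp, h7, h8, h9, by
          rcases hcut' with h | h
          · exact Or.inl h
          · right; rw [hk] at h; exact h⟩
    | RTh v =>
      have hnp : ¬ isPT p := hp.notPT (fun _ v hv => by rw [hk] at hv; cases hv) hu
      obtain ⟨h7, h8, h9⟩ := H.RTh u v hlt hk
      have hev : e = v := by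
        rw [he]
        refine rend_eq _ h7 h8 (fun s h1 h2 => by rw [h9 s h1 h2, hk]) ?_
        by_cases h14 : v = wb c t
        · exact Or.inl h14
        · right
          intro h15
          rw [hk] at h15
          exact absurd (H.RTh v v (by omega) h15).1 (lt_irrefl _)
      have ih := adj_runs H n e (Reg.RTh (ep c u) u v) (by omega) h4 hcute (Or.inl (by simp [isPT]))
      simp only [toRegs, List.cons_append, List.nil_append]
      refine ⟨⟨⟨.RTh u v, ?_⟩, ih.1⟩, ih.2⟩
      exact ⟨rfl, hnp, h7, h8, h9, by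
          rcases hcut' with h | h
          · exact Or.inl h
          · right; rw [hk] at h; exact h⟩


/-! ### the top part -/

lemma toRegs2_top (c t : ℕ) (d : Top) (s e : ℕ) : toRegs2 c t (d.kid, s, e) = [d.reg c] := by
  cases d <;> rfl

lemma top_not_isPT2 (c : ℕ) (d : Top) : ¬ isPT2 (d.reg c) := by
  cases d <;> simp [Top.reg, isPT2, isPT]

lemma adj_top (hc : 10 ≤ c) (ht : Helper86.E3.E0 c ≤ epo c t) : ∀ (n u : ℕ) (p : Reg2),
    zb c t - u ≤ n → wb c t ≤ u → u ≤ zb c t →
    (u = wb c t ∨ kid2 c t (u - 1) ≠ kid2 c t u ∨ u = zb c t) → ¬ isPT2 p →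
    Adj (HasDesc2 c t) p ((runs (kid2 c t) (zb c t) u).flatMap (toRegs2 c t)) ∧
    ¬ isPT2 (lastR p ((runs (kid2 c t) (zb c t) u).flatMap (toRegs2 c t)))
  | 0, u, p, hn, hwu, hu, _, hp => by
    rw [runs_of_le _ (by omega)]
    exact ⟨trivial, hp⟩
  | n + 1, u, p, hn, hwu, hu, hcut, hp => by
    rcases Nat.eq_or_lt_of_le hu with rfl | hlt
    · rw [runs_of_le _ le_rfl]
      exact ⟨trivial, hp⟩
    obtain ⟨d, h1, h2, h3, h4⟩ := Helper86.E3.topAt hc ht hwu hlt
    have hlen := Helper86.E3.Top.len_pos hc d
    have hlo : d.lo < d.hi c := by unfold Top.hi; omega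
    -- the run starts at `u`
    have hu0 : u = d.lo := by
      by_contra hne
      have h5 : d.lo < u := by omega
      have h6 := Helper86.E3.top_run hc ht h2 (s := u - 1) (by omega) (by omega)
      have h7 := h2.2.1
      rcases hcut with h | h | h
      · omega
      · exact h (h6.trans h1.symm)
      · omega
    have hrend := Helper86.E3.top_rend hc ht h2
    have he : rend (kid2 c t) u (zb c t) = d.hi c := by
      rw [hu0]
      refine rend_eq _ hlo h2.2.2 (fun s q1 q2 => ?_) hrend.2
      rw [Helper86.E3.top_run hc ht h2 q1 q2, Helper86.E3.top_run hc ht h2 le_rfl hlo]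
    rw [runs_of_lt _ hlt, List.flatMap_cons, he, h1, toRegs2_top]
    have hcut' : d.hi c = wb c t ∨ kid2 c t (d.hi c - 1) ≠ kid2 c t (d.hi c) ∨
        d.hi c = zb c t := by
      rcases hrend.2 with h | h
      · exact Or.inr (Or.inr h)
      · refine Or.inr (Or.inl ?_)
        rw [Helper86.E3.top_run hc ht h2 (s := d.hi c - 1) (by omega) (by omega),
          ← Helper86.E3.top_run hc ht h2 le_rfl hlo]
        exact fun h' => h h'.symm
    have ih := adj_top hc ht n (d.hi c) (d.reg c) (by omega) (by omega) h2.2.2 hcut'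
      (top_not_isPT2 c d)
    simp only [List.cons_append, List.nil_append]
    exact ⟨⟨⟨.top d, rfl, hp, h2⟩, ih.1⟩, ih.2⟩

/-- **Consecutive regions.**  `r0, r1` consecutive in `old (R 0 0) :: layL c t`: a description, or
`r1` is the zone. -/
theorem layL_cases2 (H : KidOK c t) (hc : 10 ≤ c) (ht : Helper86.E3.E0 c ≤ epo c t) {j : ℕ}
    {r0 r1 : Reg2} (h0 : (Reg2.old (.R 0 0) :: layL c t)[j]? = some r0)
    (h1 : (layL c t)[j]? = some r1) :
    HasDesc2 c t r0 r1 ∨ (r1 = zoneReg c t ∧ j + 1 = (layL c t).length ∧ ¬ isPT2 r0) := by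
  have hA := adj_runs H _ 0 (Reg.R 0 0) le_rfl (Nat.zero_le _) (Or.inl rfl)
    (Or.inl (by simp [isPT]))
  have hA1 : Adj (HasDesc2 c t) (Reg2.old (.R 0 0)) ((oldBody c t).map .old) := by
    refine Adj.map (Q := HasDesc c t) Reg2.old ?_ hA.1
    rintro a b ⟨d, hd⟩
    exact ⟨.old d, a, b, rfl, rfl, hd⟩
  have hA2 : ¬ isPT2 (lastR (Reg2.old (.R 0 0)) ((oldBody c t).map .old)) := by
    rw [lastR_map Reg2.old (oldBody c t) (.R 0 0)]
    exact hA.2
  have hT := adj_top hc ht _ (wb c t) _ le_rfl le_rfl (Helper86.E3.wb_le_zb hc ht) (Or.inl rfl) hA2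
  have hbody := body_split hc ht H.wb0
  have hB : Adj (HasDesc2 c t) (Reg2.old (.R 0 0)) (body c t) := by
    rw [hbody]
    exact hA1.append hT.1
  have hL : ¬ isPT2 (lastR (Reg2.old (.R 0 0)) (body c t)) := by
    rw [hbody, lastR_append]
    exact hT.2
  have hlen : (layL c t).length = (body c t).length + 1 := by simp [layL]
  rcases lt_or_ge j (body c t).length with hj | hj
  · left
    refine hB.get (j := j) ?_ ?_
    · rw [← h0]
      unfold layL
      rw [← List.cons_append, List.getElem?_append_left (by simp; omega)]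
    · rw [← h1]
      unfold layL
      rw [List.getElem?_append_left hj]
  · right
    have hj1 : j < (layL c t).length := by
      by_contra h
      rw [List.getElem?_eq_none (by omega)] at h1
      cases h1
    have hj2 : j = (body c t).length := by omega
    subst hj2
    have hr1 : r1 = zoneReg c t := by
      unfold layL at h1
      rw [List.getElem?_append_right le_rfl, Nat.sub_self] at h1
      simpa using h1.symm
    refine ⟨hr1, hlen.symm, ?_⟩
    have : r0 = lastR (Reg2.old (.R 0 0)) (body c t) := by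
      have h2 := get_last (body c t) (Reg2.old (.R 0 0)) (zoneReg c t)
      unfold layL at h0
      rw [h2] at h0
      exact (Option.some_injective _ h0).symm
    rw [this]
    exact hL

end Pool.Agent.E3
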