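import Mathlib
import Pool.Agent.Helper86.E3.FarCell
import Pool.Agent.Helper5.ETP.CutR

/-!
# E-T (MP_12a1af_nt), phase 3: the zones of the regions `Reg2`
-/

variable [Pool.Agent.Helper29.E3.EpFn]

set_option autoImplicit false

open Finset

namespace Pool.Agent.Helper86.E3

open Pool.Agent.ETS
open Pool.Agent.ETS.RC (RBase Yq)
open Pool.Agent.ETP (phiV)
open Pool.Agent.Helper5.ETP
open Pool.Agent.E3 (comp Rg Reg2 Codes2 setRg blkRg cellRg rgOf)

/-- the zone of one abstract region, digits `a` below its bottom, shift `κ` -/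
def zrg (r : Rg) (a κ : ℕ) : Zone where
  top := r.top
  S := r.V.image (fun z => a + 2 ^ r.bot * ((r.c z + κ) % 2 ^ r.len))

lemma zrg_old (C : Codes) (r : Reg) (a κ : ℕ) : zrg (rgOf C r) a κ = zreg C r a κ := rfl

/-- the zones that belong to the consecutive regions `r0`, `r1`; if `r0` is a small cell its
variable is known too -/
def ZoneOf2 (D : Codes2) (r0 r1 : Reg2) (Z : Zone) : Prop :=
  match r0 with
  | .old (.PT _ e _ b) => ∃ a κ κ₂, a < 2 ^ b ∧ Z = zRS D.toCodes e b (r1.rg D).top a κ κ₂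
  | _ => ∃ a κ, a < 2 ^ (r1.rg D).bot ∧ Z = zrg (r1.rg D) a κ

/-- zones of a set region -/
lemma cellU_zrg {r : Rg} {s l a κ : ℕ} {X : Finset ℕ} (hb : r.bot = s) (ht : r.top = s + l)
    (ha : a < 2 ^ s) (hV : ∀ z ∈ r.V, r.c z ∈ X) : CellU s l X 1 (zrg r a κ) := by
  refine cellU_one (κ := κ) ha ht ?_
  intro v hv
  unfold zrg at hv
  simp only [mem_image] at hv
  obtain ⟨z, hz, rfl⟩ := hv
  refine ⟨_, hV z hz, ?_⟩
  have : r.len = l := by unfold Rg.len; omega
  rw [this, hb]

/-- zones of a unit with a random block -/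
lemma cellU_RT {C : Codes} {e b W a κ : ℕ} (hW : C.W e = W) (hR : RBase C e) (ha : a < 2 ^ b) :
    CellU b W (C.T e) 1 (zreg C (.RT e b (b + W)) a κ) := by
  refine cellU_one (κ := C.E W 1 + κ) ha rfl ?_
  intro v hv
  unfold zreg at hv
  simp only [mem_image, Reg.V, Reg.bot, Reg.c, Reg.top] at hv
  obtain ⟨q, hq, rfl⟩ := hv
  have e1 : b + W - b = W := by omega
  have e2 : W - C.W e = 0 := by omega
  rw [mem_pairs, e1, e2, hR.hY, Nat.zero_div, RC.Yq_zero, mem_singleton] at hq
  refine ⟨_, hq.2, ?_⟩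
  rw [e1, hq.1]
  congr 3
  ring

/-- zones of a merged unit -/
lemma cellU_RTh {C : Codes} {e b W a κ : ℕ} (hW : C.W e = W) (hR : RBase C e) (ha : a < 2 ^ b) :
    CellU b W (C.Th e) 1 (zreg C (.RTh e b (b + W)) a κ) := by
  refine cellU_one (κ := C.E W 1 + κ) ha rfl ?_
  intro v hv
  unfold zreg at hv
  simp only [mem_image, Reg.V, Reg.bot, Reg.c, Reg.top] at hv
  obtain ⟨q, hq, rfl⟩ := hv
  have e1 : b + W - b = W := by omega
  have e2 : W - C.W e = 0 := by omega
  rw [mem_pairs, e1, e2, hR.hY, Nat.zero_div, RC.Yq_zero, mem_singleton] at hq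
  refine ⟨_, hq.2, ?_⟩
  rw [e1, hq.1]
  congr 3
  ring

/-- a region of the top zone: start, length, contents -/
def Reg2.data (D : Codes2) : Reg2 → Option (ℕ × ℕ × Finset ℕ)
  | .old (.RT e b v) => if v = b + D.W e then some (b, D.W e, D.T e) else none
  | .old (.RTh e b v) => if v = b + D.W e then some (b, D.W e, D.Th e) else none
  | .old _ => none
  | .cell l s => some (s, l, D.Sd l)
  | .mid e s => some (s, D.H e, D.Th1 e)
  | .T1 e s => some (s, D.H e, D.T1 e)
  | .C1 e s => some (s, D.H e, comp (D.Sd (D.L e)) (D.L e) (D.H e / D.L e))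
  | .C2 e s => some (s, D.W e, comp (D.Th1 e) (D.H e) (D.W e / D.H e))
  | .zone _ _ _ => none

/-- **the zones of the regions of the top zone** -/
theorem cellU_of_data {D : Codes2} {r0 r1 : Reg2} {s l : ℕ} {X : Finset ℕ} {Z : Zone}
    (hR : ∀ e b v, r1 = .old (.RT e b v) ∨ r1 = .old (.RTh e b v) → RBase D.toCodes e)
    (hd : Reg2.data D r1 = some (s, l, X)) (h0 : ∀ p e f b, r0 ≠ .old (.PT p e f b))
    (hZ : ZoneOf2 D r0 r1 Z) : CellU s l X 1 Z := by
  have hZ' : ∃ a κ, a < 2 ^ (r1.rg D).bot ∧ Z = zrg (r1.rg D) a κ := by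
    unfold ZoneOf2 at hZ
    split at hZ
    · exact absurd rfl (h0 _ _ _ _)
    · exact hZ
  obtain ⟨a, κ, ha, rfl⟩ := hZ'
  cases r1 with
  | old r =>
    cases r with
    | RT e b v =>
      simp only [Reg2.data] at hd
      split_ifs at hd with hv
      subst hv
      simp only [Option.some.injEq, Prod.mk.injEq] at hd
      obtain ⟨rfl, rfl, rfl⟩ := hd
      exact cellU_RT rfl (hR _ _ _ (Or.inl rfl)) ha
    | RTh e b v =>
      simp only [Reg2.data] at hd
      split_ifs at hd with hv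
      subst hv
      simp only [Option.some.injEq, Prod.mk.injEq] at hd
      obtain ⟨rfl, rfl, rfl⟩ := hd
      exact cellU_RTh rfl (hR _ _ _ (Or.inr rfl)) ha
    | _ => simp [Reg2.data] at hd
  | zone => simp [Reg2.data] at hd
  | _ =>
    simp only [Reg2.data, Option.some.injEq, Prod.mk.injEq] at hd
    obtain ⟨rfl, rfl, rfl⟩ := hd
    exact cellU_zrg rfl rfl ha (fun z hz => hz)

end Pool.Agent.Helper86.E3
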