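import Mathlib
import Pool.Agent.Helper86.E3.Pair

/-!
# E-T (MP_12a1af_nt), phase 3: far pairs with a region of the top zone at `K`
-/

variable [Pool.Agent.Helper29.E3.EpFn]

set_option autoImplicit false

open Finset

namespace Pool.Agent.Helper86.E3

open Pool.Agent.ETS
open Pool.Agent.ETS.RC (RBase)
open Pool.Agent.ETP (phiV)
open Pool.Agent.Helper5.ETP (Zone.Ok zcons_le_left)
open Pool.Agent.E3 (comp Rg Reg2 Codes2 Top OccT isPT2 isPT)
open Pool.Agent.Helper29.ETK (CC lg gl sl kk Gq Tq CC_pos CC_ge one_lt_CC pow_pos' pow_le pow_dvd'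
  lg_le lt_lg lg_mono lg_eq le_lg lg_lt Gq_pos kk_le le_two_kk)
open Pool.Agent.Helper29.E3 (ep epo un mb sb Wd Hd Ld hh ll tU tB wb zb gth ep_mono epo_mono un_le
  lt_un Wd_un un_un un_eq_iff Wd_pos)

variable {c : ℕ} {D : Codes2} {K K' B : ℕ} {P P' : Zone → Prop}

/-- **two regions of the top zones which meet** -/
theorem far_top_top (hc : 10 ≤ c) {d d' : Top} (hD : TopCodes c D (ep c d.lo) B)
    (hN : TopNum c (gth c K) (ep c d.lo) B) (hg8 : 8 ≤ gth c K) (hg : K' + gth c K ≤ K)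
    (ht' : E0 c ≤ epo c K') (hd : OccT c K d) (hd' : OccT c K' d') (hcap : d.hi c ≤ K')
    (hP : ∀ Z, P Z → CellU d.lo (d.len c) (topX c D d) 1 Z)
    (hP' : ∀ Z, P' Z → CellU d'.lo (d'.len c) (topX c D d') 1 Z)
    {s : ℕ} (hs1 : d.lo ≤ s) (hs2 : s < d.hi c) (hs1' : d'.lo ≤ s) (hs2' : s < d'.hi c) :
    FarB (gth c K / (8 * CC c)) K K' (d.hi c) (d'.hi c) P P' := by
  have hE := E0_ge hc
  have hKK : K' ≤ K := by omega
  have ht : E0 c ≤ epo c K := ht'.trans (epo_mono hKK)
  have he : E0 c ≤ ep c d.lo := ht.trans (epo_le_ep hc (by omega) hd.2.1)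
  have he' : E0 c ≤ ep c d'.lo := ht'.trans (epo_le_ep hc (by omega) hd'.2.1)
  have he1 : 1 ≤ ep c d.lo := by omega
  have he1' : 1 ≤ ep c d'.lo := by omega
  -- the unit and the block of a position of `d'`
  have hu' : un c s = un c d'.lo := by
    cases d' with
    | T2 b' => rw [(un_of_mem hc he1' hd'.1.1 hs1' hs2').1]; exact hd'.1.1.symm
    | C2 b' => rw [(un_of_mem hc he1' hd'.1.1 hs1' hs2').1]; exact hd'.1.1.symm
    | mid f =>
      have h1 := (mb_of_mem hc he' hd'.1.1 hs1' hs2')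
      rw [← un_mb hc (s := s) (by omega), h1.1]
    | T1 f =>
      have h1 := (mb_of_mem hc he' hd'.1.1 hs1' hs2')
      rw [← un_mb hc (s := s) (by omega), h1.1]
    | C1 f =>
      have h1 := (mb_of_mem hc he' hd'.1.1 hs1' hs2')
      rw [← un_mb hc (s := s) (by omega), h1.1]
    | cell p =>
      have h1 := (sb_of_mem hc he' hd'.1.1 hs1' hs2')
      rw [← un_sb hc (s := s) (by omega), h1.1]
  have hsame : ∀ s', E0 c ≤ ep c s' → (∀ b', d' ≠ .T2 b') → (∀ b', d' ≠ .C2 b') → s' = s →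
      mb c s' = mb c d'.lo := by
    rintro s' hes h1 h2 rfl
    cases d' with
    | T2 b' => exact absurd rfl (h1 b')
    | C2 b' => exact absurd rfl (h2 b')
    | mid f => rw [(mb_of_mem hc he' hd'.1.1 hs1' hs2').1]; exact hd'.1.1.symm
    | T1 f => rw [(mb_of_mem hc he' hd'.1.1 hs1' hs2').1]; exact hd'.1.1.symm
    | C1 f => rw [(mb_of_mem hc he' hd'.1.1 hs1' hs2').1]; exact hd'.1.1.symm
    | cell p =>
      have h1 := (sb_of_mem hc he' hd'.1.1 hs1' hs2')
      rw [← mb_sb hc hes, h1.1]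
  cases d with
  | T2 b =>
    obtain ⟨hb, h1, h2⟩ := hd.1
    have hsb : un c s = b := (un_of_mem hc he1 hb hs1 hs2).1
    exact far_unit hc hD hN he hg8 hg (k := 2) hb rfl (by norm_num) (by norm_num)
      ((tU_le c (by norm_num) b).trans h1) hcap hP ht' hd' hP' (by rw [← hu', hsb])
      (fun _ _ => le_rfl)
  | C2 b =>
    obtain ⟨hb, h1, h2⟩ := hd.1
    have hsb : un c s = b := (un_of_mem hc he1 hb hs1 hs2).1
    refine far_unit hc hD hN he hg8 hg (k := 1) hb rfl (by norm_num) (by norm_num)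
      h1 hcap hP ht' hd' hP' (by rw [← hu', hsb]) ?_
    rintro b' rfl
    exfalso
    obtain ⟨h3, h4, h5⟩ := hd'.1
    have h6 : b' = b := by
      have : un c (Top.T2 b').lo = b' := h3
      rw [← hsb, hu', this]
    subst h6
    omega
  | mid f =>
    obtain ⟨hf, h1, h2⟩ := hd.1
    obtain ⟨h3, h3'⟩ := mb_of_mem hc he hf hs1 hs2
    have hes : E0 c ≤ ep c s := by omega
    have h4 : un c s = un c f := by rw [← un_mb hc hes, h3]; rfl
    have hin : mb c d'.lo = f := by
      rw [← hsame s hes ?_ ?_ rfl, h3]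
      · rfl
      · rintro b' rfl
        obtain ⟨q1, q2, q3⟩ := hd'.1
        have q4 : un c f = b' := by rw [← h4, hu']; exact q1
        have q5 := tU_le c (show 1 ≤ 2 by norm_num) b'
        rw [q4] at h2
        omega
      · rintro b' rfl
        obtain ⟨q1, q2, q3⟩ := hd'.1
        have q4 : un c f = b' := by rw [← h4, hu']; exact q1
        rw [q4] at h2
        omega
    exact far_block hc hD hN he hg8 hg (k := 3) rfl (by norm_num) (by norm_num) h2 hcap hP ht'
      hd' hP' hin (fun _ _ => le_rfl) (fun _ _ => by norm_num)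
  | T1 f =>
    obtain ⟨hf, h1, h1', h2⟩ := hd.1
    obtain ⟨h3, h3'⟩ := mb_of_mem hc he hf hs1 hs2
    have hes : E0 c ≤ ep c s := by omega
    have h4 : un c s = un c f := by rw [← un_mb hc hes, h3]; rfl
    have hin : mb c d'.lo = f := by
      rw [← hsame s hes ?_ ?_ rfl, h3]
      · rfl
      · rintro b' rfl
        obtain ⟨q1, q2, q3⟩ := hd'.1
        have q4 : un c f = b' := by rw [← h4, hu']; exact q1
        have q5 := tU_le c (show 1 ≤ 2 by norm_num) b'
        rw [q4] at h2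
        omega
      · rintro b' rfl
        obtain ⟨q1, q2, q3⟩ := hd'.1
        have q4 : un c f = b' := by rw [← h4, hu']; exact q1
        rw [q4] at h2
        omega
    refine far_block hc hD hN he hg8 hg (k := 2) rfl (by norm_num) (by norm_num) h2 hcap hP ht'
      hd' hP' hin ?_ (fun _ _ => le_rfl)
    rintro f' rfl
    exfalso
    obtain ⟨q1, q2, q3⟩ := hd'.1
    have q4 : f' = f := by
      have : mb c (Top.mid f').lo = f' := q1
      rw [← hin, this]
    subst q4
    omega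
  | C1 f =>
    obtain ⟨hf, h1, h1', h2⟩ := hd.1
    obtain ⟨h3, h3'⟩ := mb_of_mem hc he hf hs1 hs2
    have hes : E0 c ≤ ep c s := by omega
    have h4 : un c s = un c f := by rw [← un_mb hc hes, h3]; rfl
    have hin : mb c d'.lo = f := by
      rw [← hsame s hes ?_ ?_ rfl, h3]
      · rfl
      · rintro b' rfl
        obtain ⟨q1, q2, q3⟩ := hd'.1
        have q4 : un c f = b' := by rw [← h4, hu']; exact q1
        have q5 := tU_le c (show 1 ≤ 2 by norm_num) b'
        rw [q4] at h2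
        omega
      · rintro b' rfl
        obtain ⟨q1, q2, q3⟩ := hd'.1
        have q4 : un c f = b' := by rw [← h4, hu']; exact q1
        rw [q4] at h2
        omega
    refine far_block hc hD hN he hg8 hg (k := 1) rfl (by norm_num) (by norm_num) h2 hcap hP ht'
      hd' hP' hin ?_ ?_
    · rintro f' rfl
      exfalso
      obtain ⟨q1, q2, q3⟩ := hd'.1
      have q4 : f' = f := by
        have : mb c (Top.mid f').lo = f' := q1
        rw [← hin, this]
      subst q4
      have q5 := tB_le c (show 2 ≤ 3 by norm_num) f'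
      omega
    · rintro f' rfl
      exfalso
      obtain ⟨q1, q2, q3, -⟩ := hd'.1
      have q4 : f' = f := by
        have : mb c (Top.T1 f').lo = f' := q1
        rw [← hin, this]
      subst q4
      omega
  | cell p =>
    exact far_small hc hD hN he hg8 hg rfl hd.1 hcap hP ht' hd' hP' hs1 hs2 hs1' hs2'

/-- **a region of the top zone of `K` which contains `K'`**, any region at `K'` -/
theorem far_top_cut {C g al al' lo M : ℕ} (hC : 5 ≤ C) (hK : K' + g ≤ K)
    (h : K' ≤ al) (h1 : al' ≤ K') (hlo : lo ≤ K') (hM : M ≤ 2 ^ (g / (16 * C)))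
    (h2 : al + 2 * (al - lo) ≤ K)
    (hP : ∀ Z, P Z → Z.top = al ∧ Z.S.card ≤ M * 2 ^ ((al - lo) / 2))
    (hP' : ∀ Z, P' Z → Zone.Ok Z ∧ Z.top = al') : FarB (g / (8 * C)) K K' al al' P P' := by
  refine ⟨M * 2 ^ ((al - lo) / 2), ?_, ?_⟩
  · intro n Z Z' hZ hZ'
    obtain ⟨t1, t2⟩ := hP Z hZ
    obtain ⟨ok', t3⟩ := hP' Z' hZ'
    exact (zcons_le_left ok' (by omega) (by omega) (by omega)).trans t2
  · refine fin_le' hM (phiV_eq_of_cut h (by omega) h1) ?_
    have e1 : ((((al - lo) / 2 : ℕ)) : ℝ) ≤ ((K : ℝ) - al) / 4 := by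
      have h3 : 4 * ((al - lo) / 2) + al ≤ K := by omega
      have h4 : ((4 * ((al - lo) / 2) + al : ℕ) : ℝ) ≤ (K : ℝ) := by exact_mod_cast h3
      push_cast at h4 ⊢
      linarith
    have e2 : (g : ℝ) ≤ 3 / 2 * ((K : ℝ) - al) := by
      have h3 : 2 * g + 3 * al ≤ 3 * K := by omega
      have h4 : ((2 * g + 3 * al : ℕ) : ℝ) ≤ ((3 * K : ℕ) : ℝ) := by exact_mod_cast h3
      push_cast at h4
      linarith
    have e3 : ((g / (8 * C) : ℕ) : ℝ) ≤ (g : ℝ) / 40 := by
      have h3 : g / (8 * C) ≤ g / 40 := Nat.div_le_div_left (by omega) (by norm_num)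
      calc ((g / (8 * C) : ℕ) : ℝ) ≤ ((g / 40 : ℕ) : ℝ) := by exact_mod_cast h3
        _ ≤ (g : ℝ) / 40 := by exact_mod_cast natdiv_le g 40
    have e4 : ((g / (16 * C) : ℕ) : ℝ) ≤ (g : ℝ) / 80 := by
      have h3 : g / (16 * C) ≤ g / 80 := Nat.div_le_div_left (by omega) (by norm_num)
      calc ((g / (16 * C) : ℕ) : ℝ) ≤ ((g / 80 : ℕ) : ℝ) := by exact_mod_cast h3
        _ ≤ (g : ℝ) / 80 := by exact_mod_cast natdiv_le g 80
    have e5 : (al' : ℝ) ≤ K' := by exact_mod_cast h1
    have e6 : (0:ℝ) ≤ g := Nat.cast_nonneg g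
    have e7 : (0:ℝ) ≤ (K:ℝ) - al := by linarith
    linarith

end Pool.Agent.Helper86.E3
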