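import Mathlib
import Pool.Agent.Helper5.ETP.FarCut
import Pool.Agent.Helper86.E3.FarBase

/-!
# E-T (MP_12a1af_nt), phase 3: a zone of `P` type which contains `K'`, for all zone predicates

Port of `Helper5/ETP/FarCut.lean` (helper5).
-/

variable [Pool.Agent.Helper29.E3.EpFn]

set_option autoImplicit false

open Finset

namespace Pool.Agent.Helper86.E3

open Pool.Agent.ETS
open Pool.Agent.ETP (phiV)
open Pool.Agent.Helper5.ETP

/-- from a power of two to the far bound -/
lemma farB_pow {q K K' al al' m : ℕ} {P P' : Zone → Prop} {y : ℝ}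
    (hB : ∀ n Z Z', P Z → P' Z' → (zcons K K' n Z Z').card ≤ 2 ^ m)
    (hφ : phiV K K' al al' = (2:ℝ) ^ y)
    (h : (m : ℝ) + y ≤ -((q : ℕ) : ℝ)) : FarB q K K' al al' P P' :=
  ⟨2 ^ m, hB, fin_le (x := (m : ℝ)) (by push_cast; rw [Real.rpow_natCast]) hφ h⟩

/-- the data of a zone of `P` type which contains `K'` -/
structure CutData2 (N g : ℕ) (C : Codes) (K K' : ℕ) (P : Zone → Prop) (p f b w ws A E : ℕ) :
    Prop where
  hc : 20 ≤ N
  code : PCode (C.X p) (C.P p)
  fb : f ≤ b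
  pz : ∀ Z, P Z → PZ C p f b w Z
  g : K' + g ≤ K
  f1 : f ≤ K'
  k1 : K' ≤ b + w
  A5 : b + w + 5 * A ≤ K
  len : b + w ≤ f + N * A
  E64 : 64 * N * E ≤ A
  ww : w ≤ ws
  ws : 100 * N * (ws + 20) ≤ A
  cut : ∀ l, 2 * A ≤ l → l ≤ N * A → CutBd (C.X p) (C.P p) l E

section

variable {N g : ℕ} {C : Codes} {K K' : ℕ} {P P' : Zone → Prop} {p f b w ws A E : ℕ}

/-- short zones: the trivial bound -/
lemma CutData2.short (D : CutData2 N g C K K' P p f b w ws A E) (hs : b - f < 2 * A) {al' : ℕ}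
    (hal' : al' ≤ K')
    (hZ' : ∀ Z', P' Z' → Zone.Ok Z' ∧ Z'.top = al') :
    FarB (g / (8 * N)) K K' (b + w) al' P P' := by
  have hfb := D.fb
  have hA5 := D.A5
  have hk1 := D.k1
  have hf1 := D.f1
  have hlen := D.len
  refine farB_pow (m := 2 + (b - f + 1) / 2 + w / 2) ?_
    (phiV_eq_of_cut D.k1 (by omega) hal') ?_
  · intro n Z Z' hZ hZZ'
    obtain ⟨ok', tp'⟩ := hZ' Z' hZZ'
    refine ((D.pz Z hZ).triv D.code ok' (by omega) (by omega) (by omega)).trans (le_of_eq ?_)
    rw [pow_add, pow_add]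
    norm_num
  · refine num_cut (A := A) (E := E) (w := ws) (X := 0) D.hc D.g D.k1 hal' D.A5 (by omega)
      D.E64 D.ws (by omega) (Or.inr (Or.inr ⟨?_, ?_⟩))
    · have := D.ww; omega
    · have := D.ww; omega

/-- **(CUT)**, no information on the low digits -/
theorem CutData2.none (D : CutData2 N g C K K' P p f b w ws A E) {al' : ℕ}
    (hal' : al' ≤ K')
    (hZ' : ∀ Z', P' Z' → Zone.Ok Z' ∧ Z'.top = al')
    (hX : (10 * N + 9) * (al' - f) ≤ 10 * N * (K - K')) :
    FarB (g / (8 * N)) K K' (b + w) al' P P' := by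
  have hfb := D.fb
  have hA5 := D.A5
  have hk1 := D.k1
  have hf1 := D.f1
  have hlen := D.len
  have hww := D.ww
  rcases lt_or_ge (b - f) (2 * A) with hs | hs
  · exact D.short hs hal' hZ'
  rcases le_or_gt K' b with hKb | hKb
  · -- `K' ≤ b`
    obtain ⟨k, hk⟩ : ∃ k, K' = f + k := ⟨K' - f, by omega⟩
    have hcb := D.cut (b - f) hs (by omega)
    refine farB_pow (m := E + 5 + ((b - f + 1) / 2 + 1 - (b - f - k))) ?_
      (phiV_eq_of_cut D.k1 (by omega) hal') ?_
    · intro n Z Z' hZ hZZ'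
      obtain ⟨ok', tp'⟩ := hZ' Z' hZZ'
      have h1 := (D.pz Z hZ).cutAll (K := K) (n := n) D.code hfb hcb ok'
        (show k ≤ b - f by omega) (by omega) (by omega)
      rw [← hk] at h1
      refine h1.trans ?_
      have h2 := eight_le E ((b - f + 1) / 2) (b - f - k)
      have h3 : 2 ^ (E + 5 + ((b - f + 1) / 2 + 1 - (b - f - k))) =
          2 * 2 ^ (E + 4 + ((b - f + 1) / 2 + 1 - (b - f - k))) := by
        rw [← pow_succ']; congr 1; omega
      rw [h3]
      omega
    · refine num_cut (A := A) (E := E) (w := ws) (X := al' - f) D.hc D.g D.k1 hal' D.A5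
        (by omega) D.E64 D.ws hX ?_
      omega
  · -- the block contains `K'`
    refine farB_pow (m := 2 + (b - f + 1) / 2 + w / 2) ?_
      (phiV_eq_of_cut D.k1 (by omega) hal') ?_
    · intro n Z Z' hZ hZZ'
      obtain ⟨ok', tp'⟩ := hZ' Z' hZZ'
      refine ((D.pz Z hZ).triv D.code ok' (by omega) (by omega) (by omega)).trans (le_of_eq ?_)
      rw [pow_add, pow_add]
      norm_num
    · refine num_cut (A := A) (E := E) (w := ws) (X := al' - f) D.hc D.g D.k1 hal' D.A5
        (by omega) D.E64 D.ws hX ?_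
      omega

/-- **(CUT)**, known digits below `lo'` -/
theorem CutData2.low (D : CutData2 N g C K K' P p f b w ws A E) {lo' al' X : ℕ}
    (hal' : al' ≤ K') (hlo : f ≤ lo') (hle : lo' ≤ al')
    (hZ' : ∀ Z', P' Z' → Zone.Ok Z' ∧ Z'.top = al' ∧ ∃ r, Zone.Low Z' lo' r)
    (hblk : b < K' → lo' ≤ b) (hx : al' + f ≤ 2 * lo' + X + ws)
    (hX : (10 * N + 9) * X ≤ 10 * N * (K - K')) :
    FarB (g / (8 * N)) K K' (b + w) al' P P' := by
  have hfb := D.fb
  have hA5 := D.A5
  have hk1 := D.k1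
  have hf1 := D.f1
  have hlen := D.len
  have hww := D.ww
  rcases lt_or_ge (b - f) (2 * A) with hs | hs
  · exact D.short hs hal' (fun Z' h => ⟨(hZ' Z' h).1, (hZ' Z' h).2.1⟩)
  obtain ⟨j, hj⟩ : ∃ j, lo' = f + j := ⟨lo' - f, by omega⟩
  rcases le_or_gt K' b with hKb | hKb
  · obtain ⟨k, hk⟩ : ∃ k, K' = f + k := ⟨K' - f, by omega⟩
    have hcb := D.cut (b - f) hs (by omega)
    refine farB_pow (m := E + 4 + ((b - f + 1) / 2 - j + 1 - (b - f - k))) ?_
      (phiV_eq_of_cut D.k1 (by omega) hal') ?_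
    · intro n Z Z' hZ hZZ'
      obtain ⟨ok', tp', r, hr⟩ := hZ' Z' hZZ'
      rw [hj] at hr
      have h1 := (D.pz Z hZ).cutB (K := K) (n := n) D.code hfb hcb ok' hr
        (show k ≤ b - f by omega) (by omega) (by omega) (by omega)
      rw [← hk] at h1
      exact h1.trans (eight_le E ((b - f + 1) / 2 - j) (b - f - k))
    · refine num_cut (A := A) (E := E) (w := ws) (X := X) D.hc D.g D.k1 hal' D.A5
        (by omega) D.E64 D.ws hX ?_
      omega
  · have hlb := hblk hKb
    refine farB_pow (m := 1 + ((b - f + 1) / 2 - j) + w / 2) ?_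
      (phiV_eq_of_cut D.k1 (by omega) hal') ?_
    · intro n Z Z' hZ hZZ'
      obtain ⟨ok', tp', r, hr⟩ := hZ' Z' hZZ'
      rw [hj] at hr
      refine ((D.pz Z hZ).lowB D.code ok' hr (by omega) (by omega) (by omega) (by omega)
        (by omega)).trans ?_
      rw [pow_add]
      refine Nat.mul_le_mul_right _ ?_
      rw [add_comm 1, pow_succ]
      have : 0 < 2 ^ ((b - f + 1) / 2 - j) := by positivity
      omega
    · refine num_cut (A := A) (E := E) (w := ws) (X := X) D.hc D.g D.k1 hal' D.A5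
        (by omega) D.E64 D.ws hX ?_
      omega

/-- **(CUT)**, the same anchor -/
theorem CutData2.same (D : CutData2 N g C K K' P p f b w ws A E) {j al' : ℕ}
    (hal' : al' ≤ K') (h1 : f + j ≤ al') (h2 : al' ≤ f + j + ws)
    (hZ' : ∀ Z', P' Z' → Zone.Ok Z' ∧ Z'.top = al' ∧
      ∃ g, PRep (C.X p) (C.P p) f j g Z'.S)
    (hblk : b < K' → f + j ≤ b) :
    FarB (g / (8 * N)) K K' (b + w) al' P P' := by
  have hfb := D.fb
  have hA5 := D.A5
  have hk1 := D.k1
  have hf1 := D.f1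
  have hlen := D.len
  have hww := D.ww
  rcases lt_or_ge (b - f) (2 * A) with hs | hs
  · exact D.short hs hal' (fun Z' h => ⟨(hZ' Z' h).1, (hZ' Z' h).2.1⟩)
  rcases le_or_gt K' b with hKb | hKb
  · obtain ⟨k, hk⟩ : ∃ k, K' = f + k := ⟨K' - f, by omega⟩
    have hcb := D.cut (b - f) hs (by omega)
    refine farB_pow (m := E + 4 + ((b - f - j) / 2 + 4 - (b - f - k))) ?_
      (phiV_eq_of_cut D.k1 (by omega) hal') ?_
    · intro n Z Z' hZ hZZ'
      obtain ⟨ok', tp', g, hr⟩ := hZ' Z' hZZ'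
      have h1 := (D.pz Z hZ).cutA (K := K) (n := n) D.code hfb hcb ok' hr
        (show k ≤ b - f by omega) (by omega) (by omega) (by omega)
      rw [← hk] at h1
      exact h1.trans (eight_le' E ((b - f - j) / 2 + 4) (b - f - k))
    · refine num_cut (A := A) (E := E) (w := ws) (X := 0) D.hc D.g D.k1 hal' D.A5
        (by omega) D.E64 D.ws (by omega) ?_
      omega
  · have hlb := hblk hKb
    refine farB_pow (m := (b - f - j) / 2 + 4 + w / 2) ?_
      (phiV_eq_of_cut D.k1 (by omega) hal') ?_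
    · intro n Z Z' hZ hZZ'
      obtain ⟨ok', tp', g, hr⟩ := hZ' Z' hZZ'
      refine ((D.pz Z hZ).lowA D.code hfb ok' hr (by omega) (by omega) (by omega) (by omega)
        (by omega)).trans (le_of_eq ?_)
      rw [← pow_add]
    · refine num_cut (A := A) (E := E) (w := ws) (X := 0) D.hc D.g D.k1 hal' D.A5
        (by omega) D.E64 D.ws (by omega) ?_
      omega

end

end Pool.Agent.Helper86.E3
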