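import Mathlib
import Pool.Agent.Helper86.E3.FarAll
import Pool.Agent.Helper86.E3.CutB
import Pool.Agent.Helper5.E3P.CutMk

/-!
# E-T (MP_12a1af_nt), phase 3: `P` zones of the merged part at `K` against the top zone of `K'`
-/

variable [Pool.Agent.Helper29.E3.EpFn]

set_option autoImplicit false

open Finset

namespace Pool.Agent.Helper86.E3

open Pool.Agent.ETS hiding Desc Occ IsDesc pidx
open Pool.Agent.ETP (phiV)
open Pool.Agent.Helper5.ETP (Zone.Ok Zone.Low PZ)
open Pool.Agent.ETS (PCode)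
open Pool.Agent.E3 (comp Rg Reg2 Codes2 Top OccT isPT2 isPT Desc IsDesc Occ Desc2 IsDesc2 HasDesc2
  pidx)
open Pool.Agent.Helper29.ETK (CC lg gl sl kk Gq Tq CC_ge one_lt_CC pow_pos' pow_le pow_dvd'
  lg_le lt_lg lg_mono lg_eq le_lg lg_lt Gq_pos kk_le le_two_kk)
open Pool.Agent.Helper29.E3 (ep epo un mb sb Wd Hd Ld hh ll tU tB wb zb gth ep_mono epo_mono un_le
  lt_un Wd_un un_un un_eq_iff Wd_pos j0)
open Pool.Agent.E3S (ZFacts zfacts_desc top_desc desc_le card_le_of_sq CaseHyp FarCases4 far_old)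
open Pool.Agent.Helper5.E3P (lo_dvd level_desc pz_desc pfar_mk ep_unit not_inside ep_of_P)

variable {c : ℕ} {D : Codes2} {K K' : ℕ} {P P' : Zone → Prop}

lemma low_of_low {Z : Zone} {s u r : ℕ} (h : u ≤ s) (hr : Zone.Low Z s r) :
    Zone.Low Z u (r % 2 ^ u) := by
  intro v hv
  have h3 := hr v hv
  have h4 : v % 2 ^ u = v % 2 ^ s % 2 ^ u := (Nat.mod_mod_of_dvd _ (pow_dvd_pow 2 h)).symm
  rw [h4, h3]

/-- a zone of `P` type at `K` against a zone of `K'` inside it, digits known below `u` -/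
theorem far_P_low {N g p f b w al' u W : ℕ} {C : Codes} (hX : PCode (C.X p) (C.P p))
    (hN : 20 ≤ N) (hK : K' + g ≤ K) (hg : 16 * N ≤ g) (hal : b + w ≤ K') (hal' : al' ≤ b + w)
    (h1 : f ≤ u) (h2 : u ≤ b) (hu : u ≤ al') (hW : al' ≤ u + W) (hwW : w ≤ W)
    (h8 : 100 * W ≤ K - K') (hPZ : ∀ Z, P Z → PZ C p f b w Z)
    (hP' : ∀ Z, P' Z → Zone.Ok Z ∧ Z.top = al' ∧ ∃ r, Zone.Low Z u r) :
    FarB (g / (8 * N)) K K' (b + w) al' P P' := by
  refine farB_pow (m := 1 + ((b - f + 1) / 2 - (u - f)) + w / 2) ?_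
    (phiV_eq_of_le (by omega) hal (by omega)) ?_
  · intro n Z Z' hZ hZ'
    obtain ⟨f1, f2, r, hr⟩ := hP' Z' hZ'
    have hk : f + (u - f) = u := by omega
    have h3 := (hPZ Z hZ).lowB (K := K) (K' := K') (n := n) (k := u - f) (r₀ := r) hX f1
      (by rw [hk]; exact hr) (by omega) (by omega) (by omega) (by omega) (by omega)
    refine h3.trans ?_
    rw [pow_add]
    refine Nat.mul_le_mul_right _ ?_
    rw [add_comm 1, pow_succ]
    have : 0 < 2 ^ ((b - f + 1) / 2 - (u - f)) := by positivity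
    omega
  · have hq : g / (8 * N) * (8 * N) ≤ g := Nat.div_mul_le_self _ _
    have hq2 : g / (8 * N) * 160 ≤ g / (8 * N) * (8 * N) := Nat.mul_le_mul_left _ (by omega)
    generalize g / (8 * N) = q at hq hq2 ⊢
    have hmain : 2 * (1 + ((b - f + 1) / 2 - (u - f)) + w / 2) + 2 * q + K' + al' ≤
        K + (b + w) := by omega
    generalize 1 + ((b - f + 1) / 2 - (u - f)) + w / 2 = m at hmain ⊢
    have e1 : 2 * (m : ℝ) + 2 * q + K' + al' ≤ K + ((b + w : ℕ) : ℝ) := by exact_mod_cast hmain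
    have e2 : ((al' : ℕ) : ℝ) ≤ ((b + w : ℕ) : ℝ) := by exact_mod_cast hal'
    rw [abs_of_nonneg (by linarith)]
    linarith

/-- **`P` zones of the merged part at `K`** against a region of the top zone at `K'` -/
theorem far_P_top (hyp : CaseHyp c D.toCodes K K') (hT : TopHyp c D K K') {d : Desc}
    {q0 q1 : Reg} {d' : Top} {r0' : Reg2} (hd : IsDesc c K d q0 q1) (hP : d.IsP)
    (h0' : ¬ isPT2 r0') (hd' : OccT c K' d') :
    FarB (gth c K / (8 * CC c)) K K' ((Reg2.old q1).rg D).top ((d'.reg c).rg D).top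
      (ZoneOf2 D (.old q0) (.old q1)) (ZoneOf2 D r0' (d'.reg c)) := by
  have hc : 10 ≤ c := by have := hyp.c20; omega
  have hc1 : 1 ≤ c := by omega
  have hC := CC_ge hc
  have hE := E0_ge hc
  have hg := hyp.g
  have hKK : K' ≤ K := by omega
  have ht' := hT.big
  have ht : E0 c ≤ epo c K := ht'.trans (epo_mono hKK)
  have hg16 : 16 * CC c ≤ gth c K :=
    (Pool.Agent.E3S.farNum_mk hyp.c20 (by have := hyp.epo; omega) hyp.g).g16
  have hRg := hyp.D.reg
  have hocc : Occ c K d := ⟨q0, q1, hd⟩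
  have t1 : ((Reg2.old q1).rg D).top = d.hi c := top_desc hRg hd
  have l1 := desc_le hd
  have hwK := hyp.O.K.wbt
  have hZF : ∀ Z, ZoneOf2 D (.old q0) (.old q1) Z → ZF Z d.lo (d.hi c) := by
    intro Z hZ
    have f := zfacts_desc hRg hyp.D.T hc1 hyp.O hd (zoneOf2_old.mp hZ)
    exact ⟨f.ok, f.top, f.low, card_le_of_sq f.card⟩
  have z1 : ∀ Z, ZoneOf2 D (.old q0) (.old q1) Z → Zone.Ok Z ∧ Z.top = d.hi c := fun Z h =>
    ⟨(hZF Z h).ok, (hZF Z h).top⟩
  obtain ⟨he', B', hB', -⟩ := top_facts hc ht' (epo_mono hKK) hT.codes hd'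
  have htop' := top_rg hB'
  have hZ' : ∀ Z, ZoneOf2 D r0' (d'.reg c) Z → CellU d'.lo (d'.len c) (topX c D d') 1 Z :=
    fun Z hZ => cellU_top hB' h0' hZ
  have hZF' : ∀ Z, ZoneOf2 D r0' (d'.reg c) Z → ZF Z d'.lo (d'.hi c) := fun Z h =>
    zf_top hc he' hB' (hZ' Z h)
  have z2 : ∀ Z, ZoneOf2 D r0' (d'.reg c) Z → Zone.Ok Z ∧ Z.top = d'.hi c := fun Z h =>
    ⟨(hZF' Z h).ok, (hZF' Z h).top⟩
  rw [t1, htop']
  have hlen' := Top.len_pos hc d'
  have hhi' : d'.hi c = d'.lo + d'.len c := rfl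
  have hz' := hd'.2.2
  have hzb := zb_lt hc ht'
  have F8 := hyp.F.F8 d hocc
  have hpz := pz_desc (by norm_num) hRg hyp.D.T hc1 hyp.O hd hP
  obtain ⟨p1, p2, p3, p4⟩ := hpz
  -- the bottom is aligned
  have hlod := lo_dvd hc1 hyp.O hd
  -- above `K'`
  rcases Nat.lt_or_ge d.lo K' with hloK | hloK
  swap
  · exact far_above (by omega) (by omega) hloK l1.1.le (by omega) (by omega) hZF z2
  -- the region of `K'` is above or below the bottom
  have hside : d'.hi c ≤ d.lo ∨ d.lo ≤ d'.lo := by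
    by_contra hcon
    push Not at hcon
    obtain ⟨u1, u2, -⟩ := hi_le_unit hc he' hd'.1 (s := d.lo) hcon.2.le hcon.1
    rw [un_eq_iff.mpr hlod] at u1
    omega
  rcases Nat.lt_or_ge K' (d.hi c) with hcut | hcut
  · -- the zone contains `K'`
    obtain ⟨A, E1, a1, a2, a3, a4, a5⟩ := level_desc hyp.c20 (pfar_mk hyp.c20 hyp.D) hyp.K1 hyp.O
      hyp.F hd hP hcut
    have hWs : ∀ s, s < d.hi c → Wd c s ≤ Wd c (d.hi c - 1) := fun s hs => Wd_mono (by omega)
    have hww : Pool.Agent.Helper5.E3P.Desc.ww c d ≤ Wd c (d.hi c - 1) := by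
      rcases p3 with ⟨h3, -⟩ | ⟨h3, -⟩
      · omega
      · rw [h3]
        have := Wd_pos c (Pool.Agent.Helper5.E3P.Desc.bb d)
        exact hWs _ (by omega)
    have CD : CutData2 (CC c) (gth c K) D.toCodes K K' (ZoneOf2 D (.old q0) (.old q1))
        (pidx c d.lo) d.lo (Pool.Agent.Helper5.E3P.Desc.bb d)
        (Pool.Agent.Helper5.E3P.Desc.ww c d) (Wd c (d.hi c - 1)) A E1 :=
      { hc := by omega
        code := (pfar_mk hyp.c20 hyp.D).code _
        fb := p2
        pz := fun Z hZ => p4 Z (zoneOf2_old.mp hZ)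
        g := hg
        f1 := hloK.le
        k1 := by omega
        A5 := by omega
        len := by omega
        E64 := a3
        ww := hww
        ws := a4 _ (by omega) (by omega)
        cut := a5 }
    rw [p1]
    rcases hside with hs | hs
    · refine CD.none (by omega) z2 ?_
      have : d'.hi c - d.lo = 0 := by omega
      rw [this]
      omega
    · -- inside
      obtain ⟨u1, u2, u3⟩ := hi_le_unit hc he' hd'.1 (s := d'.lo) le_rfl (by omega)
      obtain ⟨f1, f2, f3⟩ := hyp.F.T1P d d'.lo hocc hP hd'.2.1 hs (by omega) (by omega)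
      have hW' : Wd c d'.lo ≤ Wd c (d.hi c - 1) := hWs _ (by omega)
      refine CD.low (lo' := un c d'.lo) (X := 0) (by omega) f1 (by omega) ?_ ?_ (by omega)
        (by omega)
      · intro Z hZ
        obtain ⟨r, hr⟩ := (hZF' Z hZ).low
        exact ⟨(hZF' Z hZ).ok, (hZF' Z hZ).top, r % 2 ^ un c d'.lo, low_of_low u2 hr⟩
      · intro hbK
        rcases p3 with ⟨h3, h4⟩ | ⟨h3, h4⟩
        · omega
        · by_contra hcon
          push Not at hcon
          have hal : Wd c (un c d'.lo) ∣ un c d'.lo := un_eq_iff.mp (un_un hc _)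
          have h5 := not_inside hc h4 hal hcon
          omega
  · -- the zone is below `K'`
    rcases hside with hs | hs
    · exact far_leftZ (by omega) hg hg16 hcut (by omega) (by
        have : d'.hi c - d.lo = 0 := by omega
        rw [this]; omega) hZF z2
    rcases Nat.lt_or_ge d'.lo (d.hi c) with h2 | h2
    swap
    · exact far_rightZ (by omega) hg hg16 (by omega) (by omega) (by
        have : d.hi c - d'.lo = 0 := by omega
        rw [this]; omega) z1 hZF'
    obtain ⟨u1, u2, u3⟩ := hi_le_unit hc he' hd'.1 (s := d'.lo) le_rfl (by omega)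
    obtain ⟨f1, f2, f3⟩ := hyp.F.T1P d d'.lo hocc hP hd'.2.1 hs h2 (by omega)
    have hal : Wd c (un c d'.lo) ∣ un c d'.lo := un_eq_iff.mp (un_un hc _)
    -- the time is long
    have h100' : ∀ s, 4 * CC c ^ j0 c s ≤ K - K' → 100 * Wd c s ≤ K - K' := by
      intro s hs
      refine le_trans ?_ hs
      unfold j0 Wd
      rw [pow_add]
      have h8 : 25 ≤ CC c ^ 8 := le_trans (by omega) (Nat.le_self_pow (by norm_num) (CC c))
      calc 100 * CC c ^ ep c s = 4 * (CC c ^ ep c s * 25) := by ring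
        _ ≤ 4 * (CC c ^ ep c s * CC c ^ 8) :=
          Nat.mul_le_mul_left _ (Nat.mul_le_mul_left _ h8)
    have h100 := h100' _ f3
    have hbu : un c d'.lo ≤ Pool.Agent.Helper5.E3P.Desc.bb d := by
      rcases p3 with ⟨h3, h4⟩ | ⟨h3, h4⟩
      · omega
      · by_contra hcon
        push Not at hcon
        have h5 := not_inside hc h4 hal hcon
        omega
    have hww : Pool.Agent.Helper5.E3P.Desc.ww c d ≤ Wd c d'.lo ∨
        100 * Pool.Agent.Helper5.E3P.Desc.ww c d ≤ K - K' := by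
      rcases p3 with ⟨h3, -⟩ | ⟨h3, h4⟩
      · left; omega
      rcases Nat.eq_or_lt_of_le hbu with h5 | h5
      · left
        rw [h3, ← h5]
        exact (Wd_un hc _).le
      · right
        rw [h3]
        have hWb := Wd_pos c (Pool.Agent.Helper5.E3P.Desc.bb d)
        have h6 := not_inside hc hal h4 h5
        have h7 : Wd c (un c d'.lo) = Wd c d'.lo := Wd_un hc _
        have h8 := lt_un c d'.lo
        obtain ⟨-, -, f4⟩ := hyp.F.T1P d (Pool.Agent.Helper5.E3P.Desc.bb d) hocc hP (by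
          have := hd'.2.1
          omega) p2 (by omega) (by omega)
        exact h100' _ f4
    rw [p1]
    obtain ⟨W, hW⟩ : ∃ W, W = max (Wd c d'.lo) (Pool.Agent.Helper5.E3P.Desc.ww c d) := ⟨_, rfl⟩
    have hW1 : Wd c d'.lo ≤ W := by rw [hW]; exact le_max_left _ _
    have hW2 : Pool.Agent.Helper5.E3P.Desc.ww c d ≤ W := by rw [hW]; exact le_max_right _ _
    have hW3 : 100 * W ≤ K - K' := by
      rcases hww with h | h
      · rw [hW, max_eq_left h]; exact h100
      · rcases le_total (Wd c d'.lo) (Pool.Agent.Helper5.E3P.Desc.ww c d) with h5 | h5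
        · rw [hW, max_eq_right h5]; exact h
        · rw [hW, max_eq_left h5]; exact h100
    refine far_P_low (W := W) (u := un c d'.lo) ((pfar_mk hyp.c20 hyp.D).code _) (by omega) hg hg16
      (by omega) (by omega) f1 hbu (by omega) (by omega) hW2 hW3
      (fun Z hZ => p4 Z (zoneOf2_old.mp hZ)) ?_
    intro Z hZ
    obtain ⟨r, hr⟩ := (hZF' Z hZ).low
    exact ⟨(hZF' Z hZ).ok, (hZF' Z hZ).top, r % 2 ^ un c d'.lo, low_of_low u2 hr⟩

/-- the field `FarPCases` -/
theorem farPCases (hyp : CaseHyp c D.toCodes K K') (hT : TopHyp c D K K') : FarPCases c D K K' :=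
  ⟨fun _ _ _ _ _ hd hP h0' hd' => far_P_top hyp hT hd hP h0' hd'⟩

/-- **All far pairs**, only the cases of two regions of the merged parts are assumed. -/
theorem far_pairs (hyp : CaseHyp c D.toCodes K K') (hT : TopHyp c D K K')
    (h4 : FarCases4 c D.toCodes K K') {r0 r1 r0' r1' : Reg2}
    (hct : 2 * (r1.rg D).top + gth c K ≤ 2 * K) (h : HasDesc2 c K r0 r1)
    (h' : HasDesc2 c K' r0' r1') :
    FarB (gth c K / (8 * CC c)) K K' (r1.rg D).top (r1'.rg D).top (ZoneOf2 D r0 r1)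
      (ZoneOf2 D r0' r1') :=
  far_all hyp hT h4 (farPCases hyp hT) hct h h'

end Pool.Agent.Helper86.E3
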