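import Mathlib
import Pool.Agent.Helper86.E3.FarCell
import Pool.Agent.Helper83.E3.Loc2

/-!
# E-T (MP_12a1af_nt), phase 3: the codes of helper83 give `MergeCodes`
-/

variable [Pool.Agent.Helper29.E3.EpFn]

set_option autoImplicit false

open Finset

namespace Pool.Agent.Helper86.E3

open Pool.Agent.ETS
open Pool.Agent.ETS.RC (Mult)
open Pool.Agent.Helper5.ETP (SumB)
open Pool.Agent.E3 (comp)
open Pool.Agent.Helper83.E3 (cat mem_cat_succ cat_zero Loc1 Loc2 B1)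
open Pool.Agent.Helper83.ET (BT BTh)

/-! ### the two forms of the concatenations -/

/-- splitting off the lowest block -/
lemma mem_cat_front {l : ℕ} {S : Finset ℕ} : ∀ (n : ℕ) {z : ℕ},
    z ∈ cat l S (n + 1) ↔ ∃ u ∈ S, ∃ y ∈ cat l S n, u + 2 ^ l * y = z
  | 0, z => by
    rw [mem_cat_succ]
    constructor
    · rintro ⟨x, hx, s, hs, rfl⟩
      rw [cat_zero, mem_singleton] at hx
      subst hx
      exact ⟨s, hs, 0, by simp, by simp⟩
    · rintro ⟨u, hu, y, hy, rfl⟩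
      rw [cat_zero, mem_singleton] at hy
      subst hy
      exact ⟨0, by simp, u, hu, by simp⟩
  | n + 1, z => by
    rw [mem_cat_succ]
    constructor
    · rintro ⟨x, hx, s, hs, rfl⟩
      obtain ⟨u, hu, y, hy, rfl⟩ := (mem_cat_front n).mp hx
      refine ⟨u, hu, y + 2 ^ (l * n) * s, mem_cat_succ.mpr ⟨y, hy, s, hs, rfl⟩, ?_⟩
      have : 2 ^ (l * (n + 1)) = 2 ^ l * 2 ^ (l * n) := by rw [← pow_add]; congr 1; ring
      rw [this]
      ring
    · rintro ⟨u, hu, y, hy, rfl⟩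
      obtain ⟨y', hy', s, hs, rfl⟩ := mem_cat_succ.mp hy
      refine ⟨u + 2 ^ l * y', (mem_cat_front n).mpr ⟨u, hu, y', hy', rfl⟩, s, hs, ?_⟩
      have : 2 ^ (l * (n + 1)) = 2 ^ l * 2 ^ (l * n) := by rw [← pow_add]; congr 1; ring
      rw [this]
      ring

/-- **`cat` and `comp` are the same sets** -/
theorem cat_eq_comp (l : ℕ) (S : Finset ℕ) : ∀ n, cat l S n = comp S l n
  | 0 => rfl
  | n + 1 => by
    ext z
    rw [mem_cat_front, mem_comp_succ, cat_eq_comp l S n]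

/-! ### conversions -/

lemma sumB_of_mult {W r B : ℕ} {X X' : Finset ℕ} (h : Mult W r X X') (hr : r ≤ B) :
    SumB W X X' B := by
  intro s
  refine (card_le_card ?_).trans ((h (s % 2 ^ W)).trans hr)
  intro t ht
  rw [mem_filter] at ht ⊢
  exact ⟨ht.1, ht.2⟩

lemma lowB_of_filter {j B : ℕ} {X : Finset ℕ}
    (h : ∀ r, (X.filter (fun t => t % 2 ^ j = r)).card ≤ B) : LowB j X B := by
  intro r
  refine (card_le_card ?_).trans (h (r % 2 ^ j))
  intro t ht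
  rw [mem_filter] at ht ⊢
  exact ⟨ht.1, ht.2⟩

/-- the codes of a merge from the properties used by helper83 -/
theorem mergeCodes_mk {l n B : ℕ} {S T Th : Finset ℕ} (n2 : 2 ≤ n) (el : 2 ∣ l) (B8 : 8 ≤ B)
    (S_lt : ∀ x ∈ S, x < 2 ^ l) (S_card : S.card ≤ 2 ^ (l / 2)) (SS : Mult l 8 S S)
    (T_lt : ∀ x ∈ T, x < 2 ^ (n * l)) (T_card : T.card ≤ 2 ^ (n * l / 2))
    (TT : Mult (n * l) B T T) (TC : Mult (n * l) B T (cat l S n))
    (T_low : ∀ j r, (T.filter (fun t => t % 2 ^ j = r)).card ≤ B * 2 ^ (n * l / 2 - j))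
    (Th_lt : ∀ x ∈ Th, x < 2 ^ (n * l)) (Th_card : Th.card ≤ 2 ^ (n * l / 2))
    (ThTh : Mult (n * l) B Th Th) (ThT : Mult (n * l) B Th T)
    (ThC : Mult (n * l) B Th (cat l S n))
    (Th_low : ∀ j r, (Th.filter (fun t => t % 2 ^ j = r)).card ≤ B * 2 ^ (n * l / 2 - j)) :
    MergeCodes l n S T Th B where
  n2 := n2
  el := el
  B8 := B8
  S_lt := S_lt
  S_card := S_card
  SS := sumB_of_mult SS le_rfl
  T_lt := T_lt
  T_card := T_card
  TT := sumB_of_mult TT le_rfl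
  TC := by rw [← cat_eq_comp]; exact sumB_of_mult TC le_rfl
  T_low := fun j => lowB_of_filter (T_low j)
  Th_lt := Th_lt
  Th_card := Th_card
  ThTh := sumB_of_mult ThTh le_rfl
  ThT := sumB_of_mult ThT le_rfl
  ThC := by rw [← cat_eq_comp]; exact sumB_of_mult ThC le_rfl
  Th_low := fun j => lowB_of_filter (Th_low j)

/-- **the merge of the small cells** -/
theorem MergeCodes.ofLoc1 {l n th B : ℕ} {S T Th : Finset ℕ}
    (h : Loc1 l n th (cat l S n) T Th)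
    (n2 : 2 ≤ n) (el : 2 ∣ l) (S_lt : ∀ x ∈ S, x < 2 ^ l) (S_card : S.card ≤ 2 ^ (l / 2))
    (SS : Mult l 8 S S) (B8 : 8 ≤ B) (hB : B1 (l * n) ≤ B) (hl : 2 ^ l ≤ B)
    (hB1 : 1 ≤ B1 (l * n)) : MergeCodes l n S T Th B := by
  have e : l * n = n * l := mul_comm _ _
  have mm : ∀ {r : ℕ} {X X' : Finset ℕ}, Mult (l * n) r X X' → r ≤ B → Mult (n * l) B X X' := by
    intro r X X' hm hr c
    rw [e] at hm
    exact (hm c).trans hr
  refine mergeCodes_mk n2 el B8 S_lt S_card SS ?_ ?_ (mm h.TT hB) (mm h.TC hB) ?_ ?_ ?_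
    (mm h.ThTh (by omega)) (mm (Helper83.E3.Mult.symm h.TTh) hB) (mm h.ThC hl) ?_
  · rw [← e]; exact h.T_lt
  · rw [← e, h.T_card]
    exact Nat.pow_le_pow_right (by norm_num) ((Nat.sub_le _ _).trans (Nat.sub_le _ _))
  · intro j r
    rw [← e]
    exact (h.T_low hB1 j r).trans (Nat.mul_le_mul_right _ hB)
  · rw [← e]; exact h.Th_lt
  · rw [← e]; exact h.Th_card
  · intro j r
    rw [← e]
    exact (h.Th_low j r).trans (Nat.le_mul_of_pos_left _ (by omega))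

/-- **the merge of the mid cells** -/
theorem MergeCodes.ofLoc2 {C e th l n B : ℕ} {S T Th : Finset ℕ}
    (h : Loc2 C e th (cat l S n) T Th)
    (hn : n * l = C ^ e) (n2 : 2 ≤ n) (el : 2 ∣ l) (S_lt : ∀ x ∈ S, x < 2 ^ l)
    (S_card : S.card ≤ 2 ^ (l / 2)) (SS : Mult l 8 S S) (B8 : 8 ≤ B) (hB : BT C e ≤ B)
    (hBh : BTh C e ≤ B) (hB1 : 1 ≤ BT C e) : MergeCodes l n S T Th B := by
  have mm : ∀ {r : ℕ} {X X' : Finset ℕ}, Mult (C ^ e) r X X' → r ≤ B → Mult (n * l) B X X' := by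
    intro r X X' hm hr c
    rw [← hn] at hm
    exact (hm c).trans hr
  refine mergeCodes_mk n2 el B8 S_lt S_card SS ?_ ?_ (mm h.mTT hB) (mm h.TD hB) ?_ ?_ ?_
    (mm h.mThTh (by omega)) (mm h.mThT hB) (mm h.ThD hBh) ?_
  · rw [hn]; exact h.T_lt
  · rw [hn, h.T_card]
    exact Nat.pow_le_pow_right (by norm_num) ((Nat.sub_le _ _).trans (Nat.sub_le _ _))
  · intro j r
    rw [hn]
    exact (h.T_low hB1 j r).trans (Nat.mul_le_mul_right _ hB)
  · rw [hn]; exact h.Th_lt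
  · rw [hn]; exact h.Th_card
  · intro j r
    rw [hn]
    exact (h.Th_low j r).trans (Nat.le_mul_of_pos_left _ (by omega))

end Pool.Agent.Helper86.E3
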